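import Pool.Agent.Helper86.HolderHomeo

/-!
# Hölder changes of variable into `ℓ^p` Fourier classes

For every real continuous `f` on the circle, every `p > 1` and every Hölder exponent
`0 < α < 1` with `α < 2 (1 - 1/p)` there is a homeomorphism `h` of the circle, Hölder of
exponent `α`, such that the Fourier coefficients of `f ∘ h` are in `ℓ^p`.
-/

set_option autoImplicit false

open Filter Topology MeasureTheory

namespace Pool.Agent.Results.MP_fe2450_an.HolderChange

open Pool.Agent.Helper86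

/-- weights with prescribed small tails. -/
lemma exists_weights (δ : ℕ → ℝ) (hδ : ∀ i, 0 < δ i) : ∃ a : ℕ → ℝ, (∀ j, 0 < a j) ∧
    HasSum a 1 ∧ ∀ i, 1 ≤ i → 2 * ∑' j, a (j + i) ≤ δ i := by
  set e : ℕ → ℝ := fun j => (1 / 2) ^ (j + 2) *
    (Finset.range (j + 1)).inf' (by simp) (fun i => min (δ i) 1) with he
  have hinf0 : ∀ j, 0 < (Finset.range (j + 1)).inf' (by simp) (fun i => min (δ i) 1) := by
    intro j
    rw [Finset.lt_inf'_iff]
    exact fun i _ => lt_min (hδ i) one_pos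
  have he0 : ∀ j, 0 < e j := fun j => mul_pos (by positivity) (hinf0 j)
  have hle : ∀ i j, i ≤ j → e j ≤ (1 / 2) ^ (j + 2) * min (δ i) 1 := by
    intro i j hij
    refine mul_le_mul_of_nonneg_left ?_ (by positivity)
    exact Finset.inf'_le (fun i => min (δ i) 1) (Finset.mem_range.2 (by omega))
  have hgeo : ∀ i, HasSum (fun j : ℕ => ((1 : ℝ) / 2) ^ (j + i)) (2 * (1 / 2) ^ i) := by
    intro i
    have := (hasSum_geometric_of_lt_one (r := (1 : ℝ) / 2) (by norm_num) (by norm_num)).mul_right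
      ((1 / 2) ^ i)
    simp_rw [← pow_add] at this
    have e2 : (1 - 1 / 2 : ℝ)⁻¹ = 2 := by norm_num
    rw [e2] at this
    exact this
  have hse : Summable e := by
    refine Summable.of_nonneg_of_le (fun j => (he0 j).le) (fun j => (hle 0 j (Nat.zero_le _)).trans ?_)
      (hgeo 2).summable
    exact mul_le_of_le_one_right (by positivity) (min_le_right _ _)
  have htail : ∀ i, 1 ≤ i → ∑' j, e (j + i) ≤ δ i / 2 ∧ ∑' j, e (j + i) ≤ 1 / 2 := by
    intro i hi
    have h1 : ∑' j, e (j + i) ≤ ∑' j : ℕ, ((1 : ℝ) / 2) ^ (j + (i + 2)) * min (δ i) 1 := by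
      refine ((summable_nat_add_iff i).2 hse).tsum_le_tsum (fun j => ?_)
        ((hgeo (i + 2)).summable.mul_right _)
      have := hle i (j + i) (by omega)
      rwa [add_assoc] at this
    rw [tsum_mul_right, (hgeo (i + 2)).tsum_eq] at h1
    have h2 : (2 : ℝ) * (1 / 2) ^ (i + 2) ≤ 1 / 2 := by
      have : ((1 : ℝ) / 2) ^ (i + 2) ≤ (1 / 2) ^ 2 :=
        pow_le_pow_of_le_one (by norm_num) (by norm_num) (by omega)
      linarith
    have h3 : 0 < min (δ i) 1 := lt_min (hδ i) one_pos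
    have h4 : 2 * (1 / 2) ^ (i + 2) * min (δ i) 1 ≤ 1 / 2 * min (δ i) 1 :=
      mul_le_mul_of_nonneg_right h2 h3.le
    constructor
    · have := min_le_left (δ i) 1; linarith
    · have := min_le_right (δ i) 1; linarith
  refine ⟨fun j => if j = 0 then 1 - ∑' i, e (i + 1) else e j, fun j => ?_, ?_, fun i hi => ?_⟩
  · by_cases hj : j = 0
    · have := (htail 1 le_rfl).2
      simp only [hj, if_true]
      linarith
    · simp only [hj, if_false]
      exact he0 j
  · have h1 : HasSum (fun j => e (j + 1)) (∑' i, e (i + 1)) :=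
      ((summable_nat_add_iff 1).2 hse).hasSum
    rw [← hasSum_nat_add_iff' 1]
    simp only [Finset.range_one, Finset.sum_singleton, if_true]
    simpa using h1
  · have h1 : ∀ j, (if j + i = 0 then 1 - ∑' i, e (i + 1) else e (j + i)) = e (j + i) := by
      intro j
      rw [if_neg (by omega)]
    simp only [h1]
    have := (htail i hi).1
    linarith

/-- integers `2 ≤ b < m` with `m^α ≤ b ≤ m^β`. -/
lemma exists_digits {α β : ℝ} (hα : 0 < α) (hαβ : α < β) (hβ : β < 1) :
    ∃ m b : ℕ, 2 ≤ b ∧ b < m ∧ (m : ℝ) ^ α ≤ b ∧ (b : ℝ) ≤ (m : ℝ) ^ β := by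
  have h1 : Tendsto (fun m : ℕ => (m : ℝ) ^ (β - α)) atTop atTop :=
    (tendsto_rpow_atTop (by linarith)).comp tendsto_natCast_atTop_atTop
  have h2 : Tendsto (fun m : ℕ => (m : ℝ) ^ (1 - β)) atTop atTop :=
    (tendsto_rpow_atTop (by linarith)).comp tendsto_natCast_atTop_atTop
  have h3 : Tendsto (fun m : ℕ => (m : ℝ) ^ α) atTop atTop :=
    (tendsto_rpow_atTop hα).comp tendsto_natCast_atTop_atTop
  obtain ⟨m, h4, h5, h6, h7⟩ := ((h1.eventually_ge_atTop 2).and ((h2.eventually_gt_atTop 1).and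
    ((h3.eventually_gt_atTop 1).and (eventually_ge_atTop 2)))).exists
  have hm0 : (0 : ℝ) < m := by positivity
  refine ⟨m, ⌈(m : ℝ) ^ α⌉₊, ?_, ?_, Nat.le_ceil _, ?_⟩
  · have : 1 < ⌈(m : ℝ) ^ α⌉₊ := by
      rw [Nat.lt_ceil]; exact_mod_cast h6
    omega
  · have hb : ((⌈(m : ℝ) ^ α⌉₊ : ℕ) : ℝ) < m := by
      have h8 := (Nat.ceil_lt_add_one (show 0 ≤ (m : ℝ) ^ α by positivity))
      have h9 : (m : ℝ) ^ β = (m : ℝ) ^ (β - α) * (m : ℝ) ^ α := by
        rw [← Real.rpow_add hm0]; congr 1; ring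
      have h10 : (m : ℝ) = (m : ℝ) ^ (1 - β) * (m : ℝ) ^ β := by
        rw [← Real.rpow_add hm0]; simp
      have h11 : (m : ℝ) ^ β < m := by
        conv_rhs => rw [h10]
        have : 0 < (m : ℝ) ^ β := by positivity
        nlinarith
      nlinarith
    exact_mod_cast hb
  · have h8 := (Nat.ceil_lt_add_one (show 0 ≤ (m : ℝ) ^ α by positivity))
    have h9 : (m : ℝ) ^ β = (m : ℝ) ^ (β - α) * (m : ℝ) ^ α := by
      rw [← Real.rpow_add hm0]; congr 1; ring
    nlinarith

/-- A strictly increasing continuous `H` with `H (x+1) = H x + 1` induces a homeomorphism of the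
circle. -/
lemma exists_homeo {H : ℝ → ℝ} (hc : Continuous H) (hm : StrictMono H)
    (h1 : ∀ x, H (x + 1) = H x + 1) :
    ∃ h : UnitAddCircle ≃ₜ UnitAddCircle, ∀ x : ℝ, h (x : UnitAddCircle) = (H x : UnitAddCircle) := by
  have hper : Function.Periodic (fun x => (H x : UnitAddCircle)) 1 := by
    intro x
    simp only [h1]
    exact AddCircle.coe_add_period 1 (H x)
  set φ : UnitAddCircle → UnitAddCircle := hper.lift with hφ
  have hφc : ∀ x : ℝ, φ (x : UnitAddCircle) = (H x : UnitAddCircle) := fun x =>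
    hper.lift_coe x
  have hnat : ∀ (n : ℕ) x, H (x + n) = H x + n := by
    intro n x
    induction n with
    | zero => simp
    | succ n ih => push_cast; rw [← add_assoc, h1, ih]; ring
  have hint : ∀ (n : ℤ) x, H (x + n) = H x + n := by
    intro n x
    obtain ⟨k, rfl | rfl⟩ := n.eq_nat_or_neg
    · exact_mod_cast hnat k x
    · have := hnat k (x + ((-(k : ℤ) : ℤ) : ℝ))
      push_cast at this ⊢
      rw [neg_add_cancel_right] at this
      linarith
  have hcont : Continuous φ := by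
    refine continuous_quot_lift _ ?_
    exact (AddCircle.continuous_mk' 1).comp hc
  have hinj : Function.Injective φ := by
    intro x y hxy
    induction x using QuotientAddGroup.induction_on with
    | H x =>
      induction y using QuotientAddGroup.induction_on with
      | H y =>
        rw [hφc, hφc] at hxy
        have h2 : ((H x - H y : ℝ) : UnitAddCircle) = 0 := by
          rw [AddCircle.coe_sub, sub_eq_zero]; exact hxy
        obtain ⟨n, hn⟩ := (AddCircle.coe_eq_zero_iff 1).1 h2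
        simp only [zsmul_eq_mul, mul_one] at hn
        have h3 : H x = H (y + n) := by rw [hint]; linarith
        have h4 := hm.injective h3
        rw [h4]
        have : ((n : ℝ) : UnitAddCircle) = 0 :=
          (AddCircle.coe_eq_zero_iff 1).2 ⟨n, by simp⟩
        rw [AddCircle.coe_add, this, add_zero]
  have hsurj : Function.Surjective φ := by
    intro y
    induction y using QuotientAddGroup.induction_on with
    | H y =>
      have htop : Tendsto H atTop atTop := by
        refine tendsto_atTop_atTop.2 fun c => ?_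
        obtain ⟨n, hn⟩ := exists_nat_ge (c - H 0)
        refine ⟨n, fun x hx => ?_⟩
        have := hm.monotone hx
        have h5 := hnat n 0
        rw [zero_add] at h5
        linarith
      have hbot : Tendsto H atBot atBot := by
        refine tendsto_atBot_atBot.2 fun c => ?_
        obtain ⟨n, hn⟩ := exists_nat_ge (H 0 - c)
        refine ⟨-n, fun x hx => ?_⟩
        have := hm.monotone hx
        have h5 := hnat n (-n)
        rw [neg_add_cancel] at h5
        linarith
      obtain ⟨x, hx⟩ := hc.surjective htop hbot y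
      exact ⟨(x : UnitAddCircle), by rw [hφc, hx]⟩
  refine ⟨Continuous.homeoOfEquivCompactToT2 (f := Equiv.ofBijective φ ⟨hinj, hsurj⟩) hcont,
    fun x => ?_⟩
  exact hφc x

/-- scale form to Hölder form. -/
lemma holder_of_scales {m b : ℕ} (hb : 2 ≤ b) (hbm : b ≤ m) {H : ℝ → ℝ}
    (hH : ∀ (k : ℕ) (x y : ℝ), y ≤ x + 1 / (m : ℝ) ^ k → H y ≤ H x + 1 / (b : ℝ) ^ k)
    {α : ℝ} (hα : 0 < α) (hαb : (m : ℝ) ^ α ≤ b) {x y : ℝ} (hxy : x < y) (hy : y ≤ x + 1) :
    H y - H x ≤ (m : ℝ) ^ α * (y - x) ^ α := by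
  have hm0 : (0 : ℝ) < m := by exact_mod_cast (by omega : 0 < m)
  have hm1 : (1 : ℝ) < m := by exact_mod_cast (by omega : 1 < m)
  have hb0 : (0 : ℝ) < b := by exact_mod_cast (by omega : 0 < b)
  have hd0 : 0 < y - x := by linarith
  obtain ⟨k, hk1, hk2⟩ := exists_nat_pow_near_of_lt_one hd0 (by linarith)
    (show 0 < 1 / (m : ℝ) by positivity) (by rw [div_lt_one hm0]; exact hm1)
  have h1 := hH k x y (by rw [one_div_pow] at hk2; linarith)
  have h2 : 1 / (b : ℝ) ^ k ≤ 1 / ((m : ℝ) ^ α) ^ k := by gcongr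
  have h3 : 1 / ((m : ℝ) ^ α) ^ k = (m : ℝ) ^ α * ((1 / (m : ℝ)) ^ (k + 1)) ^ α := by
    have e : ((1 / (m : ℝ)) ^ (k + 1)) ^ α = ((1 / (m : ℝ)) ^ α) ^ (k + 1) := by
      rw [← Real.rpow_natCast, ← Real.rpow_natCast, ← Real.rpow_mul (by positivity),
        ← Real.rpow_mul (by positivity), mul_comm]
    rw [e, Real.div_rpow zero_le_one hm0.le, Real.one_rpow, one_div_pow, pow_succ]
    have : 0 < (m : ℝ) ^ α := by positivity
    field_simp
  have h4 : ((1 / (m : ℝ)) ^ (k + 1)) ^ α ≤ (y - x) ^ α :=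
    Real.rpow_le_rpow (by positivity) hk1.le hα.le
  have h5 : (m : ℝ) ^ α * ((1 / (m : ℝ)) ^ (k + 1)) ^ α ≤ (m : ℝ) ^ α * (y - x) ^ α := by gcongr
  linarith

lemma norm_coe_le (x : ℝ) : ‖(x : UnitAddCircle)‖ ≤ |x| := by
  rw [UnitAddCircle.norm_eq]
  simpa using round_le x 0

/-- Hölder continuity of the circle map. -/
lemma holder_circle {m b : ℕ} (hb : 2 ≤ b) (hbm : b ≤ m) {H : ℝ → ℝ} (hmono : Monotone H)
    (hH : ∀ (k : ℕ) (x y : ℝ), y ≤ x + 1 / (m : ℝ) ^ k → H y ≤ H x + 1 / (b : ℝ) ^ k)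
    {α : ℝ} (hα : 0 < α) (hαb : (m : ℝ) ^ α ≤ b) {h : UnitAddCircle → UnitAddCircle}
    (hh : ∀ x : ℝ, h (x : UnitAddCircle) = (H x : UnitAddCircle)) (x y : UnitAddCircle) :
    dist (h x) (h y) ≤ (m : ℝ) ^ α * dist x y ^ α := by
  have hm0 : (0 : ℝ) < m := by exact_mod_cast (by omega : 0 < m)
  -- lifts at the right distance
  obtain ⟨s, rfl⟩ : ∃ s : ℝ, (s : UnitAddCircle) = x := QuotientAddGroup.mk_surjective x
  obtain ⟨z, hz⟩ : ∃ z : ℝ, (z : UnitAddCircle) = y - (s : UnitAddCircle) :=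
    QuotientAddGroup.mk_surjective _
  set d : ℝ := z - round z with hd
  have hdz : (d : UnitAddCircle) = y - (s : UnitAddCircle) := by
    rw [hd, AddCircle.coe_sub, hz]
    have : ((round z : ℝ) : UnitAddCircle) = 0 :=
      (AddCircle.coe_eq_zero_iff 1).2 ⟨round z, by simp⟩
    rw [this, sub_zero]
  have hy : y = ((s + d : ℝ) : UnitAddCircle) := by
    rw [AddCircle.coe_add, hdz]; abel
  have hdist : dist (s : UnitAddCircle) y = |d| := by
    rw [dist_comm, dist_eq_norm, ← hz, UnitAddCircle.norm_eq]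
  have hd1 : |d| ≤ 1 / 2 := abs_sub_round z
  rw [hdist, hy, hh, hh, dist_eq_norm, ← AddCircle.coe_sub]
  refine (norm_coe_le _).trans ?_
  rcases lt_trichotomy d 0 with hneg | hzero | hpos
  · have h1 := holder_of_scales hb hbm hH hα hαb (x := s + d) (y := s) (by linarith)
      (by rw [abs_of_neg hneg] at hd1; linarith)
    have h2 : 0 ≤ H s - H (s + d) := sub_nonneg.2 (hmono (by linarith))
    rw [abs_of_nonneg h2, abs_of_neg hneg]
    rw [show s - (s + d) = -d by ring] at h1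
    exact h1
  · rw [hzero]; simp [Real.zero_rpow hα.ne']
  · have h1 := holder_of_scales hb hbm hH hα hαb (x := s) (y := s + d) (by linarith)
      (by rw [abs_of_pos hpos] at hd1; linarith)
    have h2 : H s - H (s + d) ≤ 0 := sub_nonpos.2 (hmono (by linarith))
    rw [abs_of_nonpos h2, abs_of_pos hpos]
    rw [show s + d - s = d by ring] at h1
    linarith

/-- the case `p < 2`. -/
theorem main_lt_two (f : C(UnitAddCircle, ℝ)) {p α : ℝ} (hp : 1 < p) (hp2 : p < 2)
    (hα0 : 0 < α) (hα : α < 2 * (1 - 1 / p)) :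
    ∃ h : UnitAddCircle ≃ₜ UnitAddCircle,
      (∃ C : ℝ, 0 ≤ C ∧ ∀ x y, dist (h x) (h y) ≤ C * dist x y ^ α) ∧
      Summable fun n : ℤ =>
        ‖fourierCoeff (fun x : UnitAddCircle => ((f (h x) : ℝ) : ℂ)) n‖ ^ p := by
  have hp0 : 0 < p := by linarith
  have hlt1 : 2 * (1 - 1 / p) < 1 := by
    have : 1 / 2 < 1 / p := one_div_lt_one_div_of_lt hp0 hp2
    linarith
  obtain ⟨β, hβ1, hβ2⟩ := exists_between hα
  obtain ⟨m, b, hb, hbm, hαb, hbβ⟩ := exists_digits hα0 hβ1 (hβ2.trans hlt1)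
  have hm0 : (0 : ℝ) < m := by exact_mod_cast (by omega : 0 < m)
  have hm1 : (1 : ℝ) < m := by exact_mod_cast (by omega : 1 < m)
  have hb0 : (0 : ℝ) < b := by exact_mod_cast (by omega : 0 < b)
  set ρ : ℝ := (b : ℝ) / m with hρ
  have hρ0 : 0 < ρ := by positivity
  have hρ1 : ρ < 1 := by rw [hρ, div_lt_one hm0]; exact_mod_cast hbm
  set M : ℝ := max 1 (2 * ‖f‖) with hM
  have hM1 : 1 ≤ M := le_max_left _ _
  set F : ℝ → ℝ := fun s => f (s : UnitAddCircle) with hF
  have hFc : Continuous F := f.continuous.comp (AddCircle.continuous_mk' 1)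
  -- moduli of continuity
  have huc : UniformContinuous f := CompactSpace.uniformContinuous_of_continuous f.continuous
  have hδ : ∀ i : ℕ, ∃ δ : ℝ, 0 < δ ∧ ∀ s t : ℝ, |s - t| ≤ δ → |F s - F t| ≤ M * ρ ^ i := by
    intro i
    obtain ⟨δ, hδ0, hδ⟩ := Metric.uniformContinuous_iff.1 huc (ρ ^ i) (by positivity)
    refine ⟨δ / 2, by positivity, fun s t hst => ?_⟩
    have h1 : dist (s : UnitAddCircle) (t : UnitAddCircle) < δ := by
      rw [dist_eq_norm, ← AddCircle.coe_sub]
      refine (norm_coe_le _).trans_lt ?_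
      linarith
    have h2 := (hδ h1).le
    rw [Real.dist_eq] at h2
    refine h2.trans ?_
    exact le_mul_of_one_le_left (by positivity) hM1
  choose δ hδ0 hδ using hδ
  obtain ⟨a, ha, hs, htail⟩ := exists_weights δ hδ0
  have hΨ := cantorLike_psi (m := m) hb hbm.le
  have hmod : ∀ (i : ℕ) (s t : ℝ), |s - t| ≤ 2 * ∑' j, a (j + i) →
      |F s - F t| ≤ M * ((b : ℝ) / m) ^ i := by
    intro i s t hst
    rcases Nat.eq_zero_or_pos i with rfl | hi
    · rw [pow_zero, mul_one]
      have h1 := f.norm_coe_le_norm (s : UnitAddCircle)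
      have h2 := f.norm_coe_le_norm (t : UnitAddCircle)
      rw [Real.norm_eq_abs] at h1 h2
      have h3 : |F s - F t| ≤ |F s| + |F t| := abs_sub _ _
      have h4 : 2 * ‖f‖ ≤ M := le_max_right _ _
      have h5 : |F s| ≤ ‖f‖ := h1
      have h6 : |F t| ≤ ‖f‖ := h2
      linarith
    · exact hδ i s t (hst.trans (htail i hi))
  set H := Hmap m a (psi m b) with hH
  have hHc : Continuous H := Hmap_continuous hΨ hb hbm.le ha hs
  have hHm : StrictMono H := Hmap_strictMono hΨ (by omega) ha hs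
  obtain ⟨h, hh⟩ := exists_homeo hHc hHm (Hmap_add_one hΨ (by omega) ha hs)
  refine ⟨h, ⟨(m : ℝ) ^ α, by positivity, fun x y => ?_⟩, ?_⟩
  · exact holder_circle hb hbm.le hHm.monotone (Hmap_holder hΨ (by omega) hbm.le ha hs) hα0 hαb
      hh x y
  · set g : C(UnitAddCircle, ℂ) := ⟨fun x => ((f (h x) : ℝ) : ℂ), by fun_prop⟩ with hg
    have key := summable_of_modulus g (m := m) (by omega) (ρ := ρ)
      (C := M ^ 2 * (1 + 2 / (1 - ρ))) (p := p) hρ0 (by
        have : 0 < 1 - ρ := by linarith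
        positivity) (fun k => ?_) hp0 hp2.le ?_
    · exact key
    · have ht0 : (0 : ℝ) ≤ 1 / (2 * (m : ℝ) ^ k) := by positivity
      have ht : 1 / (2 * (m : ℝ) ^ k) ≤ 1 / (m : ℝ) ^ k := by
        apply one_div_le_one_div_of_le (by positivity)
        have : 0 < (m : ℝ) ^ k := by positivity
        linarith
      have := modulus_bound hΨ hb hbm ha hs hFc (by linarith : 0 ≤ M) hmod k ht0 ht
      refine le_trans (le_of_eq ?_) this
      refine intervalIntegral.integral_congr fun x _ => ?_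
      simp only [hg, ContinuousMap.coe_mk, hh]
      rw [← Complex.ofReal_sub, Complex.norm_real, Real.norm_eq_abs, sq_abs]
    · have h1 : ρ ≤ (m : ℝ) ^ (β - 1) := by
        rw [hρ, Real.rpow_sub hm0, Real.rpow_one]
        gcongr
      have h2 : ρ ^ (p / 2) ≤ ((m : ℝ) ^ (β - 1)) ^ (p / 2) := by gcongr
      have h3 : (m : ℝ) ^ (1 - p / 2) * ((m : ℝ) ^ (β - 1)) ^ (p / 2) =
          (m : ℝ) ^ (1 - p / 2 + (β - 1) * (p / 2)) := by
        rw [← Real.rpow_mul hm0.le, ← Real.rpow_add hm0]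
      have h4 : 1 - p / 2 + (β - 1) * (p / 2) < 0 := by
        have h5 : β * p < 2 * (1 - 1 / p) * p := by gcongr
        have h6 : 2 * (1 - 1 / p) * p = 2 * (p - 1) := by field_simp
        linarith
      calc (m : ℝ) ^ (1 - p / 2) * ρ ^ (p / 2)
          ≤ (m : ℝ) ^ (1 - p / 2) * ((m : ℝ) ^ (β - 1)) ^ (p / 2) := by gcongr
        _ = _ := h3
        _ < 1 := Real.rpow_lt_one_of_one_lt_of_neg hm1 h4

/-- `ℓ^q ⊆ ℓ^p` for `0 < q ≤ p`. -/
lemma summable_rpow_mono {c : ℤ → ℂ} {q p : ℝ} (hq : 0 < q) (hqp : q ≤ p)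
    (h : Summable fun n => ‖c n‖ ^ q) : Summable fun n => ‖c n‖ ^ p := by
  have hp : 0 < p := hq.trans_le hqp
  have h1 : Memℓp c (ENNReal.ofReal q) := by
    rw [memℓp_gen_iff (by rw [ENNReal.toReal_ofReal hq.le]; exact hq), ENNReal.toReal_ofReal hq.le]
    exact h
  have h2 : Memℓp c (ENNReal.ofReal p) := h1.of_exponent_ge (ENNReal.ofReal_le_ofReal hqp)
  rwa [memℓp_gen_iff (by rw [ENNReal.toReal_ofReal hp.le]; exact hp),
    ENNReal.toReal_ofReal hp.le] at h2

lemma holderWith_of_dist {h : UnitAddCircle → UnitAddCircle} {α : NNReal} {C : ℝ} (hC : 0 ≤ C)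
    (H : ∀ x y, dist (h x) (h y) ≤ C * dist x y ^ (α : ℝ)) : HolderWith C.toNNReal α h := by
  intro x y
  rw [edist_dist, edist_dist]
  refine (ENNReal.ofReal_le_ofReal (H x y)).trans (le_of_eq ?_)
  rw [ENNReal.ofReal_mul hC, ENNReal.ofReal_rpow_of_nonneg dist_nonneg α.coe_nonneg]
  rfl

/-- **Main theorem.**  For every real continuous function `f` on the circle `𝕋 = ℝ/ℤ`, every
`p > 1` and every exponent `0 < α < 1` with `α < 2 (1 - 1/p)`, there is a homeomorphism `h` of `𝕋`
which is Hölder continuous of exponent `α` and such that the Fourier coefficients of `f ∘ h`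
are in `ℓ^p(ℤ)`. -/
theorem result (f : C(UnitAddCircle, ℝ)) (p : ℝ) (hp : 1 < p) (α : NNReal) (hα0 : 0 < α)
    (hα1 : α < 1) (hα : (α : ℝ) < 2 * (1 - 1 / p)) :
    ∃ h : UnitAddCircle ≃ₜ UnitAddCircle,
      (∃ C : NNReal, HolderWith C α h) ∧
      Summable fun n : ℤ =>
        ‖fourierCoeff (fun x : UnitAddCircle => ((f (h x) : ℝ) : ℂ)) n‖ ^ p := by
  have hα0' : (0 : ℝ) < α := by exact_mod_cast hα0
  have hα1' : (α : ℝ) < 1 := by exact_mod_cast hα1
  rcases lt_or_ge p 2 with hp2 | hp2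
  · obtain ⟨h, ⟨C, hC, hh⟩, hs⟩ := main_lt_two f hp hp2 hα0' hα
    exact ⟨h, ⟨C.toNNReal, holderWith_of_dist hC hh⟩, hs⟩
  · -- use a smaller exponent `q < 2`
    have h1 : 2 / (2 - (α : ℝ)) < 2 := by
      rw [div_lt_iff₀ (by linarith)]; linarith
    obtain ⟨q, hq1, hq2⟩ := exists_between h1
    have hq0 : 1 < q := by
      refine lt_trans ?_ hq1
      rw [lt_div_iff₀ (by linarith)]; linarith
    have hqα : (α : ℝ) < 2 * (1 - 1 / q) := by
      rw [div_lt_iff₀ (by linarith)] at hq1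
      have : 2 * (1 - 1 / q) = (2 * q - 2) / q := by field_simp
      rw [this, lt_div_iff₀ (by linarith)]
      linarith
    obtain ⟨h, ⟨C, hC, hh⟩, hs⟩ := main_lt_two f hq0 hq2 hα0' hqα
    exact ⟨h, ⟨C.toNNReal, holderWith_of_dist hC hh⟩,
      summable_rpow_mono (by linarith) (by linarith) hs⟩

end Pool.Agent.Results.MP_fe2450_an.HolderChange
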